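import Pool.Agent.Lib.MP_0d3661_nt.Coeff

/-!
A criterion in terms of the digits in base `p`, `p` any odd prime, for the real and the imaginary
part of the Feynman checkers amplitude not to vanish.
-/

namespace Pool.Agent.Results.MP_0d3661_nt.DigitCriterion

open Finset Polynomial
open Pool.Agent.Lib.MP_0d3661_nt

theorem coeff_one_sub {R : Type*} [CommRing R] (N j : ℕ) :
    ((1 - X : R[X]) ^ N).coeff j = (-1) ^ j * (N.choose j : R) := by
  induction N generalizing j with
  | zero => cases j <;> simp [coeff_one]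
  | succ N ih =>
    rw [pow_succ, mul_sub, mul_one, coeff_sub]
    cases j with
    | zero => simp [ih]
    | succ j =>
      rw [coeff_mul_X, ih, ih, Nat.choose_succ_succ]
      push_cast
      ring

theorem sum_range_eq {R : Type*} [AddCommMonoid R] (f : ℕ → R) {a b : ℕ}
    (ha : ∀ i, a ≤ i → f i = 0) (hb : ∀ i, b ≤ i → f i = 0) :
    ∑ i ∈ range a, f i = ∑ i ∈ range b, f i := by
  rcases le_total a b with h | h
  · refine Finset.sum_subset (Finset.range_subset_range.2 h) fun i _ hi => ha i ?_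
    simpa using hi
  · refine (Finset.sum_subset (Finset.range_subset_range.2 h) fun i _ hi => hb i ?_).symm
    simpa using hi

/-- the sum behind the real part -/
def R (M N : ℕ) : ℤ := ∑ i ∈ range (N + 1), (-1) ^ i * (M.choose i : ℤ) * (N.choose i : ℤ)

/-- the sum behind the imaginary part -/
def J (M N : ℕ) : ℤ := ∑ i ∈ range (N + 1), (-1) ^ i * (M.choose (i + 1) : ℤ) * (N.choose i : ℤ)

theorem V_self (n q : ℕ) : V n q q = (-1) ^ q * R (n - q) q := by
  unfold V R
  rw [coeff_mul, Finset.Nat.sum_antidiagonal_eq_sum_range_succ_mk, Finset.mul_sum]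
  refine Finset.sum_congr rfl fun i hi => ?_
  have hi' : i ≤ q := Nat.lt_succ_iff.1 (Finset.mem_range.1 hi)
  simp only [coeff_one_add_X_pow, coeff_one_sub, Nat.choose_symm hi']
  have h : (-1 : ℤ) ^ q = (-1) ^ (q - i) * (-1) ^ i := by
    rw [← pow_add, Nat.sub_add_cancel hi']
  have h2 : ((-1 : ℤ) ^ i) * (-1) ^ i = 1 := by
    rw [← mul_pow]; simp
  rw [h]
  linear_combination (-((n - q).choose i : ℤ) * ((-1) ^ (q - i) * (q.choose i : ℤ))) * h2

theorem V_succ_self (n q : ℕ) : V n q (q + 1) = (-1) ^ q * J (n - q) q := by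
  unfold V J
  rw [coeff_mul, Finset.Nat.sum_antidiagonal_eq_sum_range_succ_mk, Finset.sum_range_succ',
    Finset.mul_sum]
  have h0 : ((1 + X : ℤ[X]) ^ (n - q)).coeff (0, q + 1 - 0).1 *
      ((1 - X : ℤ[X]) ^ q).coeff (0, q + 1 - 0).2 = 0 := by
    simp [coeff_one_sub]
  rw [h0, add_zero]
  refine Finset.sum_congr rfl fun i hi => ?_
  have hi' : i ≤ q := Nat.lt_succ_iff.1 (Finset.mem_range.1 hi)
  have hs : q + 1 - (i + 1) = q - i := by omega
  simp only [coeff_one_add_X_pow, coeff_one_sub, hs, Nat.choose_symm hi']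
  have h : (-1 : ℤ) ^ q = (-1) ^ (q - i) * (-1) ^ i := by
    rw [← pow_add, Nat.sub_add_cancel hi']
  have h2 : ((-1 : ℤ) ^ i) * (-1) ^ i = 1 := by
    rw [← mul_pow]; simp
  rw [h]
  linear_combination (-((n - q).choose (i + 1) : ℤ) * ((-1) ^ (q - i) * (q.choose i : ℤ))) * h2

theorem R_comm (M N : ℕ) : R M N = R N M := by
  unfold R
  rw [sum_range_eq (fun i => (-1 : ℤ) ^ i * (M.choose i : ℤ) * (N.choose i : ℤ)) (a := N + 1)
    (b := M + 1)]
  · exact Finset.sum_congr rfl fun i _ => by ring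
  · intro i hi
    simp [Nat.choose_eq_zero_of_lt (by omega : N < i)]
  · intro i hi
    simp [Nat.choose_eq_zero_of_lt (by omega : M < i)]

section ModP

variable {p : ℕ} [hp : Fact p.Prime] (a : ℕ)

theorem pos_P : 0 < p ^ a := pow_pos hp.out.pos a

/-- `C(P-1, j) = (-1)^j` modulo `p` -/
theorem choose_pred (j : ℕ) (hj : j < p ^ a) : ((p ^ a - 1).choose j : ZMod p) = (-1) ^ j := by
  induction j with
  | zero => simp
  | succ j ih =>
    have h1 : p ∣ (p ^ a).choose (j + 1) :=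
      Nat.Prime.dvd_choose_pow hp.out (Nat.succ_ne_zero j) hj.ne
    have h2 : ((p ^ a).choose (j + 1) : ZMod p) = 0 := (ZMod.natCast_eq_zero_iff _ _).2 h1
    have hP := pos_P (p := p) a
    have h3 : (p ^ a).choose (j + 1) = (p ^ a - 1).choose j + (p ^ a - 1).choose (j + 1) := by
      conv_lhs => rw [show p ^ a = (p ^ a - 1) + 1 by omega, Nat.choose_succ_succ]
    rw [h3, Nat.cast_add, ih (by omega)] at h2
    rw [pow_succ]
    linear_combination h2

theorem one_add_pow : (1 + X : (ZMod p)[X]) ^ p ^ a = 1 + X ^ p ^ a := by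
  rw [add_pow_expChar_pow, one_pow]

theorem choose_add (N i : ℕ) (hi : i < p ^ a) : ((N + p ^ a).choose i : ZMod p) = N.choose i := by
  rw [← coeff_one_add_X_pow (ZMod p) (N + p ^ a) i, ← coeff_one_add_X_pow (ZMod p) N i, pow_add,
    one_add_pow, mul_add, mul_one, coeff_add, coeff_mul_X_pow', if_neg (not_le.2 hi), add_zero]

theorem choose_mod (N i : ℕ) (hi : i < p ^ a) :
    (N.choose i : ZMod p) = ((N % p ^ a).choose i : ZMod p) := by
  conv_lhs => rw [← Nat.mod_add_div N (p ^ a)]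
  induction N / p ^ a with
  | zero => simp
  | succ u ih => rw [Nat.mul_succ, ← add_assoc, choose_add a _ i hi, ih]

theorem sum_choose {v K : ℕ} (h : v + 1 ≤ K) :
    ∑ i ∈ range K, (v.choose i : ZMod p) = 2 ^ v := by
  have h1 := Nat.sum_range_choose v
  have h2 : ∑ i ∈ range (v + 1), (v.choose i : ZMod p) = 2 ^ v := by
    have h3 := congrArg (Nat.cast : ℕ → ZMod p) h1
    push_cast at h3
    exact h3
  rw [← h2]
  refine (Finset.sum_subset (Finset.range_subset_range.2 h) fun i _ hi => ?_).symm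
  rw [Finset.mem_range, not_lt] at hi
  rw [Nat.choose_eq_zero_of_lt (by omega : v < i), Nat.cast_zero]

theorem two_pow_ne (hp2 : p ≠ 2) (v : ℕ) : (2 : ZMod p) ^ v ≠ 0 := by
  refine pow_ne_zero _ fun h => hp2 ?_
  have h1 : ((2 : ℕ) : ZMod p) = 0 := by exact_mod_cast h
  have h2 : p ∣ 2 := (ZMod.natCast_eq_zero_iff _ _).1 h1
  exact (Nat.prime_dvd_prime_iff_eq hp.out Nat.prime_two).1 h2

/-- the coefficients of `(1+X)^M (1-X)^N` -/
noncomputable def U (M N k : ℕ) : ℤ := ((1 + X) ^ M * (1 - X) ^ N : ℤ[X]).coeff k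

theorem U_self (M N : ℕ) : U M N N = (-1) ^ N * R M N := by
  have h := V_self (M + N) N
  rw [Nat.add_sub_cancel] at h
  rw [← h, V, U, Nat.add_sub_cancel]

theorem U_succ_self (M N : ℕ) : U M N (N + 1) = (-1) ^ N * J M N := by
  have h := V_succ_self (M + N) N
  rw [Nat.add_sub_cancel] at h
  rw [← h, V, U, Nat.add_sub_cancel]

theorem U_zero (M N : ℕ) : U M N 0 = 1 := by
  simp [U, coeff_zero_eq_eval_zero]

theorem U_big {M N k : ℕ} (h : M + N < k) : U M N k = 0 := by
  refine coeff_eq_zero_of_natDegree_lt (lt_of_le_of_lt ?_ h)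
  refine natDegree_mul_le.trans (Nat.add_le_add ?_ ?_)
  · have h1 : (1 + X : ℤ[X]).natDegree ≤ 1 := (natDegree_add_le _ _).trans (by simp)
    exact natDegree_pow_le.trans (by nlinarith)
  · have h1 : (1 - X : ℤ[X]).natDegree ≤ 1 := (natDegree_sub_le _ _).trans (by simp)
    exact natDegree_pow_le.trans (by nlinarith)

theorem U_cast (M N k : ℕ) :
    ((U M N k : ℤ) : ZMod p) = ((1 + X) ^ M * (1 - X) ^ N : (ZMod p)[X]).coeff k := by
  have h : ((1 + X) ^ M * (1 - X) ^ N : (ZMod p)[X]) =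
      ((1 + X) ^ M * (1 - X) ^ N : ℤ[X]).map (Int.castRingHom (ZMod p)) := by
    simp
  rw [h, coeff_map, U]
  rfl

/-- multiplication of the generating functions -/
theorem U_mul (M N m n k : ℕ) :
    ((U (p * M + m) (p * N + n) k : ℤ) : ZMod p) = ∑ e ∈ Finset.HasAntidiagonal.antidiagonal k,
      ((U m n e.1 : ℤ) : ZMod p) * (if p ∣ e.2 then ((U M N (e.2 / p) : ℤ) : ZMod p) else 0) := by
  have h : ((1 + X) ^ (p * M + m) * (1 - X) ^ (p * N + n) : (ZMod p)[X]) =
      ((1 + X) ^ m * (1 - X) ^ n) * expand (ZMod p) p ((1 + X) ^ M * (1 - X) ^ N) := by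
    rw [ZMod.expand_card]
    ring
  rw [U_cast, h, coeff_mul]
  refine Finset.sum_congr rfl fun e _ => ?_
  rw [coeff_expand hp.out.pos, U_cast]
  split_ifs
  · rw [U_cast]
  · rfl

theorem U_lucas {M N m n : ℕ} (hm : m < p) (c : ℕ) (hc : c < p) (hcn : n ≤ c) :
    ((U (p * M + m) (p * N + n) (p * N + c) : ℤ) : ZMod p) =
      ((U m n c : ℤ) : ZMod p) * ((U M N N : ℤ) : ZMod p) := by
  rw [U_mul, Finset.sum_eq_single (c, p * N)]
  · rw [if_pos (dvd_mul_right _ _), Nat.mul_div_cancel_left _ hp.out.pos]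
  · rintro ⟨e, f⟩ hef hne
    rw [Finset.HasAntidiagonal.mem_antidiagonal] at hef
    dsimp only at hef ⊢
    by_cases hf : p ∣ f
    · obtain ⟨g, rfl⟩ := hf
      rcases lt_trichotomy g N with hg | hg | hg
      · have h1 : p * (g + 1) ≤ p * N := Nat.mul_le_mul_left p hg
        rw [mul_add, mul_one] at h1
        have h2 : m + n < e := by omega
        rw [U_big h2, Int.cast_zero, zero_mul]
      · subst hg
        obtain rfl : e = c := by omega
        exact absurd rfl hne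
      · have h1 : p * (N + 1) ≤ p * g := Nat.mul_le_mul_left p hg
        rw [mul_add, mul_one] at h1
        omega
    · rw [if_neg hf, mul_zero]
  · intro h
    exact absurd (Finset.HasAntidiagonal.mem_antidiagonal.2 (by dsimp only; ring)) h

theorem U_lucas_last {M N m : ℕ} (hm : m < p) :
    ((U (p * M + m) (p * N + (p - 1)) (p * (N + 1)) : ℤ) : ZMod p) =
      ((U M N (N + 1) : ℤ) : ZMod p) + ((U m (p - 1) p : ℤ) : ZMod p) * ((U M N N : ℤ) : ZMod p) := by
  have hp0 := hp.out.pos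
  have hne : ((0, p * (N + 1)) : ℕ × ℕ) ≠ (p, p * N) := by
    intro h
    have := congrArg Prod.fst h
    dsimp only at this
    omega
  rw [U_mul, ← Finset.sum_subset (s₁ := {(0, p * (N + 1)), (p, p * N)}), Finset.sum_pair hne]
  · dsimp only
    rw [if_pos (dvd_mul_right _ _), if_pos (dvd_mul_right _ _), Nat.mul_div_cancel_left _ hp0,
      Nat.mul_div_cancel_left _ hp0, U_zero, Int.cast_one, one_mul]
  · intro e he
    rw [Finset.mem_insert, Finset.mem_singleton] at he
    rw [Finset.HasAntidiagonal.mem_antidiagonal]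
    rcases he with rfl | rfl
    · simp
    · dsimp only; ring
  · rintro ⟨e, f⟩ hef hnot
    rw [Finset.HasAntidiagonal.mem_antidiagonal] at hef
    rw [Finset.mem_insert, Finset.mem_singleton, not_or] at hnot
    dsimp only at hef ⊢
    by_cases hf : p ∣ f
    · obtain ⟨g, rfl⟩ := hf
      rcases lt_trichotomy g N with hg | hg | hg
      · have h1 : p * (g + 1) ≤ p * N := Nat.mul_le_mul_left p hg
        rw [mul_add, mul_one] at h1 hef
        rw [U_big (by omega), Int.cast_zero, zero_mul]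
      · subst hg
        rw [mul_add, mul_one] at hef
        obtain rfl : e = p := by omega
        exact absurd rfl hnot.2
      · rcases Nat.lt_or_ge (N + 1) g with h2 | h2
        · have h1 : p * (N + 1 + 1) ≤ p * g := Nat.mul_le_mul_left p h2
          rw [mul_add, mul_one] at h1
          omega
        · obtain rfl : g = N + 1 := by omega
          obtain rfl : e = 0 := by omega
          exact absurd rfl hnot.1
    · rw [if_neg hf, mul_zero]

theorem neg_one_pow_p (hp2 : p ≠ 2) (N n : ℕ) :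
    (-1 : ZMod p) ^ (p * N + n) = (-1) ^ N * (-1) ^ n := by
  rw [pow_add, pow_mul, (hp.out.odd_of_ne_two hp2).neg_one_pow]

theorem R_cast (M N : ℕ) : ((R M N : ℤ) : ZMod p) = (-1) ^ N * ((U M N N : ℤ) : ZMod p) := by
  rw [U_self]
  push_cast
  rw [← mul_assoc, ← mul_pow]
  simp

theorem J_cast (M N : ℕ) : ((J M N : ℤ) : ZMod p) = (-1) ^ N * ((U M N (N + 1) : ℤ) : ZMod p) := by
  rw [U_succ_self]
  push_cast
  rw [← mul_assoc, ← mul_pow]
  simp

theorem R_lucas (hp2 : p ≠ 2) {M N m n : ℕ} (hm : m < p) (hn : n < p) :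
    ((R (p * M + m) (p * N + n) : ℤ) : ZMod p) = (R M N : ℤ) * (R m n : ℤ) := by
  rw [R_cast, R_cast, R_cast, U_lucas hm n hn le_rfl, neg_one_pow_p hp2]
  ring

theorem J_lucas (hp2 : p ≠ 2) {M N m n : ℕ} (hm : m < p) (hn : n + 1 < p) :
    ((J (p * M + m) (p * N + n) : ℤ) : ZMod p) = (R M N : ℤ) * (J m n : ℤ) := by
  rw [J_cast, R_cast, J_cast, add_assoc, U_lucas hm (n + 1) hn (Nat.le_succ n), neg_one_pow_p hp2]
  ring

theorem J_last {m : ℕ} (hm : m < p) : ((J m (p - 1) : ℤ) : ZMod p) = 2 ^ m - 1 := by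
  have hp0 := hp.out.pos
  have h1 : ∀ i < p, ((p - 1).choose i : ZMod p) = (-1) ^ i := by
    intro i hi
    have := choose_pred (p := p) 1 i (by rwa [pow_one])
    rwa [pow_one] at this
  unfold J
  push_cast
  rw [Nat.sub_add_cancel hp0, ← sum_choose (p := p) (v := m) (K := p + 1) (by omega),
    Finset.sum_range_succ']
  rw [Nat.choose_zero_right, Nat.cast_one, add_sub_cancel_right]
  refine Finset.sum_congr rfl fun i hi => ?_
  rw [h1 i (Finset.mem_range.1 hi)]
  have h2 : ((-1 : ZMod p) ^ i) * (-1) ^ i = 1 := by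
    rw [← mul_pow]; simp
  linear_combination (m.choose (i + 1) : ZMod p) * h2

theorem J_lucas_last (hp2 : p ≠ 2) {M N m : ℕ} (hm : m < p) :
    ((J (p * M + m) (p * N + (p - 1)) : ℤ) : ZMod p) =
      (J M N : ℤ) + (2 ^ m - 1) * (R M N : ℤ) := by
  have hp0 := hp.out.pos
  have h1 : p * N + (p - 1) + 1 = p * (N + 1) := by rw [mul_add, mul_one]; omega
  have h2 : (-1 : ZMod p) ^ (p - 1) = 1 := by
    obtain ⟨k, hk⟩ := hp.out.odd_of_ne_two hp2
    have hk' : p - 1 = 2 * k := by omega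
    rw [hk', pow_mul]
    simp
  have h3 := J_last (p := p) hm
  rw [J_cast, h2, one_mul, Nat.sub_add_cancel hp0] at h3
  rw [J_cast, h1, U_lucas_last hm, neg_one_pow_p hp2, h2, h3, J_cast, R_cast]
  ring

/-! digits -/

theorem R_digits (hp2 : p ≠ 2) (M N : ℕ)
    (h : ∀ i, ((R (M / p ^ i % p) (N / p ^ i % p) : ℤ) : ZMod p) ≠ 0) :
    ((R M N : ℤ) : ZMod p) ≠ 0 := by
  induction hs : M + N using Nat.strong_induction_on generalizing M N with
  | _ s ih =>
    rcases Nat.eq_zero_or_pos s with h0 | h0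
    · obtain rfl : M = 0 := by omega
      obtain rfl : N = 0 := by omega
      simp [R]
    · have hM := Nat.div_add_mod M p
      have hN := Nat.div_add_mod N p
      have hlt : M / p + N / p < s := by
        rcases Nat.eq_zero_or_pos M with hM0 | hM0
        · have hN0 : 0 < N := by omega
          have h1 := Nat.div_lt_self hN0 hp.out.one_lt
          have h2 := Nat.div_le_self M p
          omega
        · have h1 := Nat.div_lt_self hM0 hp.out.one_lt
          have h2 := Nat.div_le_self N p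
          omega
      have h1 : ((R (M / p) (N / p) : ℤ) : ZMod p) ≠ 0 := by
        refine ih (M / p + N / p) hlt _ _ (fun i => ?_) rfl
        have := h (i + 1)
        rwa [pow_succ', ← Nat.div_div_eq_div_mul, ← Nat.div_div_eq_div_mul] at this
      have h2 := R_lucas hp2 (M := M / p) (N := N / p) (m := M % p) (n := N % p)
        (Nat.mod_lt _ hp.out.pos) (Nat.mod_lt _ hp.out.pos)
      rw [hM, hN] at h2
      rw [h2]
      have h3 := h 0
      rw [pow_zero, Nat.div_one, Nat.div_one] at h3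
      exact mul_ne_zero h1 h3

theorem choose_pred' (i : ℕ) (hi : i < p) : ((p - 1).choose i : ZMod p) = (-1) ^ i := by
  have := choose_pred (p := p) 1 i (by rwa [pow_one])
  rwa [pow_one] at this

theorem R_pred (n : ℕ) (hn : n < p) : ((R (p - 1) n : ℤ) : ZMod p) = 2 ^ n := by
  rw [← sum_choose (p := p) (le_refl (n + 1))]
  unfold R
  push_cast
  refine Finset.sum_congr rfl fun i hi => ?_
  rw [Finset.mem_range] at hi
  rw [choose_pred' i (by omega), ← mul_pow]
  simp

theorem R_low (hp2 : p ≠ 2) (k M N : ℕ) (h : ∀ i < k, N / p ^ i % p = p - 1) :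
    ((R M N : ℤ) : ZMod p) =
      2 ^ (∑ i ∈ range k, M / p ^ i % p) * ((R (M / p ^ k) (N / p ^ k) : ℤ) : ZMod p) := by
  induction k generalizing M N with
  | zero => simp
  | succ k ih =>
    have hp0 := hp.out.pos
    have h0 := h 0 (Nat.succ_pos k)
    rw [pow_zero, Nat.div_one] at h0
    have hlt := Nat.mod_lt M hp0
    have h5 := R_lucas hp2 (M := M / p) (N := N / p) (m := M % p) (n := p - 1) hlt (by omega)
    have hN := Nat.div_add_mod N p
    rw [h0] at hN
    rw [Nat.div_add_mod, hN, R_comm (M % p), R_pred (M % p) hlt] at h5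
    have h6 := ih (M / p) (N / p) fun i hi => by
      have := h (i + 1) (Nat.succ_lt_succ hi)
      rwa [pow_succ', ← Nat.div_div_eq_div_mul] at this
    rw [h5, h6, Finset.sum_range_succ', pow_zero, Nat.div_one,
      pow_add (2 : ZMod p)]
    simp only [pow_succ', ← Nat.div_div_eq_div_mul]
    ring

theorem J_low (hp2 : p ≠ 2) (k M N : ℕ) (h : ∀ i < k, N / p ^ i % p = p - 1) :
    ((J M N : ℤ) : ZMod p) = ((J (M / p ^ k) (N / p ^ k) : ℤ) : ZMod p) +
      (2 ^ (∑ i ∈ range k, M / p ^ i % p) - 1) * ((R (M / p ^ k) (N / p ^ k) : ℤ) : ZMod p) := by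
  induction k generalizing M N with
  | zero => simp
  | succ k ih =>
    have hp0 := hp.out.pos
    have h0 := h 0 (Nat.succ_pos k)
    rw [pow_zero, Nat.div_one] at h0
    have hlt := Nat.mod_lt M hp0
    have h5 := J_lucas_last hp2 (M := M / p) (N := N / p) (m := M % p) hlt
    have hN := Nat.div_add_mod N p
    rw [h0] at hN
    rw [Nat.div_add_mod, hN] at h5
    have hd : ∀ i < k, N / p / p ^ i % p = p - 1 := fun i hi => by
      have := h (i + 1) (Nat.succ_lt_succ hi)
      rwa [pow_succ', ← Nat.div_div_eq_div_mul] at this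
    rw [h5, ih (M / p) (N / p) hd, R_low hp2 k (M / p) (N / p) hd, Finset.sum_range_succ',
      pow_zero, Nat.div_one, pow_add (2 : ZMod p)]
    simp only [pow_succ', ← Nat.div_div_eq_div_mul]
    ring

theorem J_digits (hp2 : p ≠ 2) (k M N : ℕ)
    (h1 : ∀ i < k, N / p ^ i % p = p - 1) (h2 : N / p ^ k % p ≠ p - 1)
    (h3 : (((2 ^ (∑ i ∈ range k, M / p ^ i % p) - 1) * R (M / p ^ k % p) (N / p ^ k % p) +
      J (M / p ^ k % p) (N / p ^ k % p) : ℤ) : ZMod p) ≠ 0)
    (h4 : ∀ i, k < i → ((R (M / p ^ i % p) (N / p ^ i % p) : ℤ) : ZMod p) ≠ 0) :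
    ((J M N : ℤ) : ZMod p) ≠ 0 := by
  have hlt := Nat.mod_lt (N / p ^ k) hp.out.pos
  have hm := Nat.mod_lt (M / p ^ k) hp.out.pos
  have e1 := J_lucas hp2 (M := M / p ^ k / p) (N := N / p ^ k / p) (m := M / p ^ k % p)
    (n := N / p ^ k % p) hm (by omega)
  have e2 := R_lucas hp2 (M := M / p ^ k / p) (N := N / p ^ k / p) (m := M / p ^ k % p)
    (n := N / p ^ k % p) hm hlt
  rw [Nat.div_add_mod, Nat.div_add_mod] at e1 e2
  have e3 : ((R (M / p ^ k / p) (N / p ^ k / p) : ℤ) : ZMod p) ≠ 0 := by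
    refine R_digits hp2 _ _ fun i => ?_
    have := h4 (k + 1 + i) (by omega)
    rwa [pow_add, pow_succ, ← Nat.div_div_eq_div_mul, ← Nat.div_div_eq_div_mul,
      ← Nat.div_div_eq_div_mul, ← Nat.div_div_eq_div_mul] at this
  rw [J_low hp2 k M N h1, e1, e2]
  push_cast at h3
  intro h0
  refine mul_ne_zero e3 h3 ?_
  linear_combination h0

/-! explicit digits -/

theorem R_zero_left (n : ℕ) : R 0 n = 1 := by
  rw [R_comm]
  simp [R]

theorem R_one_left (n : ℕ) : R 1 n = 1 - n := by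
  rw [R_comm]
  simp [R, Finset.sum_range_succ]
  ring

theorem choose_pred_two (i : ℕ) (hi : i < p) :
    ((p - 2).choose i : ZMod p) = (-1) ^ i * (i + 1) := by
  induction i with
  | zero => simp
  | succ i ih =>
    have hp2 := hp.out.two_le
    have h3 : (p - 1).choose (i + 1) = (p - 2).choose i + (p - 2).choose (i + 1) := by
      rw [show p - 1 = (p - 2) + 1 by omega, Nat.choose_succ_succ]
    have h4 := choose_pred' (p := p) (i + 1) hi
    rw [h3, Nat.cast_add, ih (by omega), pow_succ] at h4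
    rw [pow_succ]
    push_cast
    linear_combination h4

theorem sum_mul_choose (n : ℕ) :
    (2 : ZMod p) * ∑ i ∈ range (n + 1), (i : ZMod p) * (n.choose i : ZMod p) = n * 2 ^ n := by
  have h := congrArg (Nat.cast : ℕ → ZMod p) (Nat.sum_range_mul_choose n)
  push_cast at h
  rw [h]
  rcases n with _ | n
  · simp
  · rw [Nat.add_sub_cancel, pow_succ]
    ring

theorem R_pred_two (n : ℕ) (hn : n < p) :
    (2 : ZMod p) * ((R (p - 2) n : ℤ) : ZMod p) = 2 ^ n * (n + 2) := by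
  have h1 : ((R (p - 2) n : ℤ) : ZMod p) = ∑ i ∈ range (n + 1), (i : ZMod p) * (n.choose i : ZMod p) +
      ∑ i ∈ range (n + 1), (n.choose i : ZMod p) := by
    rw [← Finset.sum_add_distrib]
    unfold R
    push_cast
    refine Finset.sum_congr rfl fun i hi => ?_
    rw [Finset.mem_range] at hi
    rw [choose_pred_two i (by omega)]
    have h2 : ((-1 : ZMod p) ^ i) * (-1) ^ i = 1 := by
      rw [← mul_pow]; simp
    linear_combination ((i : ZMod p) + 1) * (n.choose i : ZMod p) * h2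
  rw [h1, mul_add, sum_mul_choose, sum_choose (p := p) (le_refl (n + 1))]
  ring

theorem natCast_ne {m : ℕ} (h0 : 0 < m) (h1 : m < p) : (m : ZMod p) ≠ 0 := fun h =>
  absurd (Nat.le_of_dvd h0 ((ZMod.natCast_eq_zero_iff _ _).1 h)) (by omega)

theorem R_good_left (hp2 : p ≠ 2) (m n : ℕ) (hn : n < p)
    (h : m = 0 ∨ m = 1 ∨ m = p - 2 ∨ m = p - 1) (h1 : ¬ (m = 1 ∧ n = 1))
    (h2 : ¬ (m = p - 2 ∧ n = p - 2)) : ((R m n : ℤ) : ZMod p) ≠ 0 := by
  have hp3 := hp.out.two_le
  rcases h with rfl | rfl | rfl | rfl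
  · rw [R_zero_left]
    simp
  · rw [R_one_left]
    push_cast
    intro h3
    rcases Nat.eq_zero_or_pos n with rfl | hn0
    · simp at h3
    · have h4 : ((n - 1 : ℕ) : ZMod p) = 0 := by
        rw [Nat.cast_sub hn0]
        push_cast
        linear_combination -h3
      exact natCast_ne (p := p) (m := n - 1) (by omega) (by omega) h4
  · intro h3
    have h4 := R_pred_two n hn
    rw [h3, mul_zero] at h4
    rcases mul_eq_zero.1 h4.symm with h5 | h5
    · exact two_pow_ne hp2 n h5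
    · have h6 : ((n + 2 : ℕ) : ZMod p) = 0 := by push_cast; exact h5
      obtain ⟨c, hc⟩ := (ZMod.natCast_eq_zero_iff _ _).1 h6
      have hc1 : c = 1 := by
        rcases c with _ | _ | c
        · omega
        · rfl
        · exfalso
          have : p * 2 ≤ p * (c + 1 + 1) := Nat.mul_le_mul_left p (by omega)
          omega
      rw [hc1, mul_one] at hc
      exact h2 ⟨rfl, by omega⟩
  · rw [R_pred n hn]
    exact two_pow_ne hp2 n

theorem R_good (hp2 : p ≠ 2) (m n : ℕ) (hm : m < p) (hn : n < p)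
    (h : m = 0 ∨ m = 1 ∨ m = p - 2 ∨ m = p - 1 ∨ n = 0 ∨ n = 1 ∨ n = p - 2 ∨ n = p - 1)
    (h1 : ¬ (m = 1 ∧ n = 1)) (h2 : ¬ (m = p - 2 ∧ n = p - 2)) :
    ((R m n : ℤ) : ZMod p) ≠ 0 := by
  by_cases h3 : m = 0 ∨ m = 1 ∨ m = p - 2 ∨ m = p - 1
  · exact R_good_left hp2 m n hn h3 h1 h2
  · rw [R_comm]
    exact R_good_left hp2 n m hm (by tauto) (by tauto) (by tauto)

theorem J_good (hp2 : p ≠ 2) (m n : ℕ) (hm : m < p) (hn : n + 1 < p) (hm0 : m ≠ 0)
    (h : m = 1 ∨ m = p - 1 ∨ n = 0 ∨ n = p - 2) : ((J m n : ℤ) : ZMod p) ≠ 0 := by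
  have hp3 := hp.out.two_le
  rcases h with rfl | rfl | rfl | rfl
  · have : J 1 n = 1 := by
      unfold J
      rw [Finset.sum_eq_single 0]
      · simp
      · intro i _ hi
        simp [Nat.choose_eq_zero_of_lt (by omega : 1 < i + 1)]
      · intro h
        simp at h
    rw [this]
    simp
  · have : ((J (p - 1) n : ℤ) : ZMod p) = - 2 ^ n := by
      rw [← sum_choose (p := p) (le_refl (n + 1)), ← Finset.sum_neg_distrib]
      unfold J
      push_cast
      refine Finset.sum_congr rfl fun i hi => ?_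
      rw [Finset.mem_range] at hi
      rw [choose_pred' (i + 1) (by omega), pow_succ]
      have h2 : ((-1 : ZMod p) ^ i) * (-1) ^ i = 1 := by
        rw [← mul_pow]; simp
      linear_combination (-(n.choose i : ZMod p)) * h2
    rw [this]
    exact neg_ne_zero.2 (two_pow_ne hp2 n)
  · have : J m 0 = m := by simp [J]
    rw [this]
    push_cast
    exact natCast_ne (Nat.pos_of_ne_zero hm0) hm
  · intro h3
    have h4 : ((J m (p - 2) : ℤ) : ZMod p) =
        ∑ i ∈ range (m + 1), (i : ZMod p) * (m.choose i : ZMod p) := by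
      rw [sum_range_eq (fun i => (i : ZMod p) * (m.choose i : ZMod p)) (a := m + 1)
        (b := p - 2 + 1 + 1), Finset.sum_range_succ']
      · unfold J
        push_cast
        rw [zero_mul, add_zero]
        refine Finset.sum_congr rfl fun i hi => ?_
        rw [Finset.mem_range] at hi
        rw [choose_pred_two i (by omega)]
        have h2 : ((-1 : ZMod p) ^ i) * (-1) ^ i = 1 := by
          rw [← mul_pow]; simp
        linear_combination ((i : ZMod p) + 1) * (m.choose (i + 1) : ZMod p) * h2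
      · intro i hi
        simp [Nat.choose_eq_zero_of_lt (by omega : m < i)]
      · intro i hi
        simp [Nat.choose_eq_zero_of_lt (by omega : m < i)]
    have h5 := sum_mul_choose (p := p) m
    rw [← h4, h3, mul_zero] at h5
    rcases mul_eq_zero.1 h5.symm with h6 | h6
    · exact natCast_ne (Nat.pos_of_ne_zero hm0) hm h6
    · exact two_pow_ne hp2 m h6

end ModP

theorem amp_parts (M N : ℕ) :
    (amp ((M : ℤ) - N) (M + N + 2)).re = (2 : ℝ) ^ ((-1 - (M : ℝ) - N) / 2) * (R M N : ℝ) ∧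
    (amp ((M : ℤ) - N) (M + N + 2)).im = (2 : ℝ) ^ ((-1 - (M : ℝ) - N) / 2) * (-(J M N) : ℝ) := by
  have hx : ((M : ℤ) - N) = (((M + N + 1 : ℕ) : ℤ) + 1 - 2 * ((N + 1 : ℕ) : ℤ)) := by
    push_cast; ring
  have hr := (rl_eq (M + N) N (by omega))
  rw [V_self, V_succ_self, Nat.add_sub_cancel] at hr
  have he : (1 - ((M + N + 1 + 1 : ℕ) : ℝ)) / 2 = (-1 - (M : ℝ) - N) / 2 := by
    push_cast; ring
  have h2 : ((-1 : ℤ) ^ N) * (-1) ^ N = 1 := by
    rw [← mul_pow]; simp
  constructor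
  · rw [hx, amp_re, hr.1, he]
    congr 1
    have : (-1 : ℤ) ^ N * ((-1) ^ N * R M N) = R M N := by linear_combination (R M N) * h2
    rw [this]
  · rw [hx, amp_im, hr.2, he]
    congr 1
    have : (-1 : ℤ) ^ (N + 1) * ((-1) ^ N * J M N) = - J M N := by
      rw [pow_succ]; linear_combination (-(J M N)) * h2
    rw [this]
    push_cast
    rfl


theorem cast_ne_iff {p : ℕ} (a : ℤ) : ((a : ℤ) : ZMod p) ≠ 0 ↔ ¬ (p : ℤ) ∣ a :=
  not_congr (ZMod.intCast_zmod_eq_zero_iff_dvd a p)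

theorem re_ne {M N : ℕ} (h : R M N ≠ 0) : (amp ((M : ℤ) - N) (M + N + 2)).re ≠ 0 := by
  rw [(amp_parts M N).1]
  exact mul_ne_zero (Real.rpow_pos_of_pos (by norm_num) _).ne' (by exact_mod_cast h)

theorem im_ne {M N : ℕ} (h : J M N ≠ 0) : (amp ((M : ℤ) - N) (M + N + 2)).im ≠ 0 := by
  rw [(amp_parts M N).2]
  exact mul_ne_zero (Real.rpow_pos_of_pos (by norm_num) _).ne'
    (by exact_mod_cast neg_ne_zero.2 h)

theorem R_small {p : ℕ} (hp : p.Prime) (hp2 : p ≠ 2) (h : p ≤ 11) :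
    ∀ m < p, ∀ n < p, ((p : ℤ) ∣ R m n ↔ m = n ∧ m % 2 = 1) := by
  have h2 := hp.two_le
  interval_cases p
  · exact absurd rfl hp2
  · decide +kernel
  · exact absurd hp (by norm_num)
  · decide +kernel
  · exact absurd hp (by norm_num)
  · decide +kernel
  · exact absurd hp (by norm_num)
  · exact absurd hp (by norm_num)
  · exact absurd hp (by norm_num)
  · decide +kernel

/-- The digit criterion modulo an odd prime `p`, and digits to which it applies. -/
theorem result (p : ℕ) (hp : p.Prime) (hp2 : p ≠ 2) :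
    (∀ M N : ℕ, (∀ i, ¬ (p : ℤ) ∣ R (M / p ^ i % p) (N / p ^ i % p)) →
      (amp ((M : ℤ) - N) (M + N + 2)).re ≠ 0) ∧
    (∀ M N k : ℕ, (∀ i < k, N / p ^ i % p = p - 1) → N / p ^ k % p ≠ p - 1 →
      ¬ (p : ℤ) ∣ (2 ^ (∑ i ∈ range k, M / p ^ i % p) - 1) * R (M / p ^ k % p) (N / p ^ k % p) +
        J (M / p ^ k % p) (N / p ^ k % p) →
      (∀ i > k, ¬ (p : ℤ) ∣ R (M / p ^ i % p) (N / p ^ i % p)) →
      (amp ((M : ℤ) - N) (M + N + 2)).im ≠ 0) ∧
    (∀ m n : ℕ, m < p → n < p →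
      (m = 0 ∨ m = 1 ∨ m = p - 2 ∨ m = p - 1 ∨ n = 0 ∨ n = 1 ∨ n = p - 2 ∨ n = p - 1) →
      ¬ (m = 1 ∧ n = 1) → ¬ (m = p - 2 ∧ n = p - 2) → ¬ (p : ℤ) ∣ R m n) ∧
    (∀ m n : ℕ, m < p → n < p - 1 → m ≠ 0 → (m = 1 ∨ m = p - 1 ∨ n = 0 ∨ n = p - 2) →
      ¬ (p : ℤ) ∣ J m n) ∧
    (p ≤ 11 → ∀ m n : ℕ, m < p → n < p → ((p : ℤ) ∣ R m n ↔ m = n ∧ m % 2 = 1)) := by
  have : Fact p.Prime := ⟨hp⟩
  refine ⟨fun M N h => ?_, fun M N k h1 h2 h3 h4 => ?_, fun m n hm hn h h1 h2 => ?_,
    fun m n hm hn h0 h => ?_, fun h m n hm hn => R_small hp hp2 h m hm n hn⟩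
  · refine re_ne fun h0 => R_digits hp2 M N (fun i => (cast_ne_iff _).2 (h i)) ?_
    rw [h0, Int.cast_zero]
  · refine im_ne fun h0 => J_digits hp2 k M N h1 h2 ((cast_ne_iff _).2 h3)
      (fun i hi => (cast_ne_iff _).2 (h4 i hi)) ?_
    rw [h0, Int.cast_zero]
  · exact (cast_ne_iff _).1 (R_good hp2 m n hm hn h h1 h2)
  · exact (cast_ne_iff _).1 (J_good hp2 m n hm (by omega) h0 h)

/-- reading for `p = 3, 5, 7, 11`: at a zero of the real part some place has equal odd digits -/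
theorem odd_digit (p : ℕ) (hp : p.Prime) (hp2 : p ≠ 2) (h11 : p ≤ 11) (M N : ℕ)
    (h : (amp ((M : ℤ) - N) (M + N + 2)).re = 0) :
    ∃ i, M / p ^ i % p = N / p ^ i % p ∧ M / p ^ i % p % 2 = 1 := by
  have hr := result p hp hp2
  by_contra hcon
  push Not at hcon
  refine hr.1 M N (fun i hi => ?_) h
  obtain ⟨h1, h2⟩ := (hr.2.2.2.2 h11 _ _ (Nat.mod_lt _ hp.pos) (Nat.mod_lt _ hp.pos)).1 hi
  exact hcon i h1 h2

theorem three_digits : ∀ m < 3, ∀ n < 2,
    (¬ (3 : ℤ) ∣ J m n ↔ m ≠ 0) ∧ (¬ (3 : ℤ) ∣ R m n + J m n ↔ m ≠ 2) := by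
  decide +kernel

/-- reading for `p = 3`, imaginary part: `k` the number of last digits `2` of `N`, `s` the sum of the
last `k` digits of `M` -/
theorem three_im (M N k : ℕ) (h1 : ∀ i < k, N / 3 ^ i % 3 = 2) (h2 : N / 3 ^ k % 3 ≠ 2)
    (h3 : ∀ i > k, ¬ (M / 3 ^ i % 3 = 1 ∧ N / 3 ^ i % 3 = 1))
    (h4 : (∑ i ∈ range k, M / 3 ^ i % 3) % 2 = 0 → M / 3 ^ k % 3 ≠ 0)
    (h5 : (∑ i ∈ range k, M / 3 ^ i % 3) % 2 = 1 → M / 3 ^ k % 3 ≠ 2) :
    (amp ((M : ℤ) - N) (M + N + 2)).im ≠ 0 := by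
  have hr := result 3 Nat.prime_three (by norm_num)
  have hm := Nat.mod_lt (M / 3 ^ k) (show 3 > 0 by norm_num)
  have hn := Nat.mod_lt (N / 3 ^ k) (show 3 > 0 by norm_num)
  obtain ⟨d1, d2⟩ := three_digits (M / 3 ^ k % 3) hm (N / 3 ^ k % 3) (by omega)
  refine hr.2.1 M N k h1 h2 (fun h => ?_) fun i hi h => ?_
  · generalize (∑ i ∈ range k, M / 3 ^ i % 3) = s at h h4 h5
    generalize R (M / 3 ^ k % 3) (N / 3 ^ k % 3) = r at h d2
    generalize J (M / 3 ^ k % 3) (N / 3 ^ k % 3) = j at h d1 d2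
    have e4 : ∀ u : ℕ, (3 : ℤ) ∣ 4 ^ u - 1 := fun u => by
      have := sub_dvd_pow_sub_pow (4 : ℤ) 1 u
      rw [one_pow] at this
      exact (by norm_num : (3 : ℤ) ∣ 4 - 1).trans this
    rcases Nat.mod_two_eq_zero_or_one s with hs | hs
    · obtain ⟨u, hu⟩ : ∃ u, s = 2 * u := ⟨s / 2, by omega⟩
      rw [hu, pow_mul, show (2 : ℤ) ^ 2 = 4 by norm_num] at h
      exact d1.2 (h4 hs) ((Int.dvd_add_right (dvd_mul_of_dvd_left (e4 u) r)).1 (by exact_mod_cast h))
    · obtain ⟨u, hu⟩ : ∃ u, s = 2 * u + 1 := ⟨s / 2, by omega⟩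
      rw [hu, pow_succ, pow_mul, show (2 : ℤ) ^ 2 = 4 by norm_num] at h
      have h6 : (3 : ℤ) ∣ 2 * (4 ^ u - 1) * r + (r + j) := by
        have : (2 : ℤ) * (4 ^ u - 1) * r + (r + j) = (4 ^ u * 2 - 1) * r + j := by ring
        rw [this]
        exact_mod_cast h
      exact d2.2 (h5 hs) ((Int.dvd_add_right
        (dvd_mul_of_dvd_left (dvd_mul_of_dvd_right (e4 u) 2) r)).1 h6)
  · have h6 := (hr.2.2.2.2 (by norm_num) _ _ (Nat.mod_lt _ (by norm_num))
      (Nat.mod_lt _ (by norm_num))).1 h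
    have h7 := Nat.mod_lt (M / 3 ^ i) (show 3 > 0 by norm_num)
    exact h3 i hi (by omega)

theorem digit_pred {p : ℕ} (hp : 2 ≤ p) (a i : ℕ) :
    (i < a → (p ^ a - 1) / p ^ i % p = p - 1) ∧ (a ≤ i → (p ^ a - 1) / p ^ i % p = 0) := by
  have h0 : ∀ j, 0 < p ^ j := fun j => pow_pos (by omega) j
  constructor
  · intro hi
    obtain ⟨b, rfl⟩ := Nat.exists_eq_add_of_lt hi
    have h1 : (p ^ (i + b + 1) - 1) / p ^ i = p ^ (b + 1) - 1 := by
      have h2 : p ^ (i + b + 1) = p ^ i * p ^ (b + 1) := by rw [add_assoc, pow_add]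
      have h3 : p ^ (i + b + 1) - 1 = (p ^ i - 1) + p ^ i * (p ^ (b + 1) - 1) := by
        have := h0 i
        have := h0 (b + 1)
        have h4 : p ^ i * 1 ≤ p ^ i * p ^ (b + 1) := Nat.mul_le_mul_left _ (by omega)
        rw [h2, Nat.mul_sub]
        omega
      rw [h3, Nat.add_mul_div_left _ _ (h0 i), Nat.div_eq_of_lt (by have := h0 i; omega), zero_add]
    rw [h1]
    have h5 : p ^ (b + 1) - 1 = (p - 1) + p * (p ^ b - 1) := by
      have := h0 b
      have h4 : p * 1 ≤ p * p ^ b := Nat.mul_le_mul_left _ (by omega)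
      rw [pow_succ', Nat.mul_sub]
      omega
    rw [h5, Nat.add_mul_mod_self_left, Nat.mod_eq_of_lt (by omega)]
  · intro hi
    rw [Nat.div_eq_of_lt, Nat.zero_mod]
    have := Nat.pow_le_pow_right (show p > 0 by omega) hi
    have := h0 a
    omega

theorem dvd_of_digits {p : ℕ} (hp : 2 ≤ p) (a N : ℕ) (h : ∀ i < a, N / p ^ i % p = p - 1) :
    p ^ a ∣ N + 1 := by
  induction a generalizing N with
  | zero => simp
  | succ a ih =>
    have h1 := h 0 (Nat.succ_pos a)
    rw [pow_zero, Nat.div_one] at h1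
    obtain ⟨c, hc⟩ := ih (N / p) fun i hi => by
      have := h (i + 1) (Nat.succ_lt_succ hi)
      rwa [pow_succ', ← Nat.div_div_eq_div_mul] at this
    refine ⟨c, ?_⟩
    have h2 := Nat.div_add_mod N p
    rw [h1] at h2
    have h3 : N + 1 = p * (N / p + 1) := by rw [mul_add, mul_one]; omega
    rw [h3, hc, pow_succ']
    ring

/-- reading at `(t + x) / 2` a power of an odd prime -/
theorem odd_prime_power (p : ℕ) (hp : p.Prime) (hp2 : p ≠ 2) (a t : ℕ) (ht : p ^ a < t) :
    (amp (2 * (p : ℤ) ^ a - t) t).re ≠ 0 ∧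
    (¬ p ^ a ∣ t → (amp (2 * (p : ℤ) ^ a - t) t).im ≠ 0) := by
  have hr := result p hp hp2
  have h2 := hp.two_le
  have hp3 : 3 ≤ p := by omega
  have h0 : 0 < p ^ a := pow_pos hp.pos a
  obtain ⟨N, rfl⟩ := Nat.exists_eq_add_of_lt ht
  have hx : (2 * (p : ℤ) ^ a - ((p ^ a + N + 1 : ℕ) : ℤ)) = ((p ^ a - 1 : ℕ) : ℤ) - N := by
    rw [Nat.cast_sub h0]
    push_cast
    ring
  have ht' : p ^ a + N + 1 = (p ^ a - 1) + N + 2 := by omega
  have hR : ∀ i, ¬ (p : ℤ) ∣ R ((p ^ a - 1) / p ^ i % p) (N / p ^ i % p) := by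
    intro i
    refine hr.2.2.1 _ _ (Nat.mod_lt _ hp.pos) (Nat.mod_lt _ hp.pos) ?_ ?_ ?_ <;>
    · rcases Nat.lt_or_ge i a with hi | hi
      · rw [(digit_pred h2 a i).1 hi]; omega
      · rw [(digit_pred h2 a i).2 hi]; omega
  rw [hx]
  constructor
  · rw [ht']
    exact hr.1 _ _ hR
  · intro hd
    rw [ht']
    have hex : ∃ k, N / p ^ k % p ≠ p - 1 ∧ k < a := by
      by_contra hcon
      push Not at hcon
      refine hd ?_
      rw [add_assoc]
      refine Dvd.dvd.add (dvd_refl _) (dvd_of_digits h2 a N fun i hi => ?_)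
      by_contra h5
      exact absurd hi (not_lt.2 (hcon i h5))
    have hk := Nat.find_spec hex
    have hmin := fun m => Nat.find_min hex (m := m)
    set k := Nat.find hex with hkdef
    refine hr.2.1 _ _ k (fun i hi => ?_) hk.1 ?_ (fun i _ => hR i)
    · by_contra h5
      exact hmin i hi ⟨h5, hi.trans hk.2⟩
    · rw [(digit_pred h2 a k).1 hk.2]
      have hlt := Nat.mod_lt (N / p ^ k) hp.pos
      have h6 := hr.2.2.2.1 (p - 1) (N / p ^ k % p) (by omega) (by have := hk.1; omega) (by omega)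
        (Or.inr (Or.inl rfl))
      have h7 : ∑ i ∈ range k, (p ^ a - 1) / p ^ i % p = k * (p - 1) := by
        rw [Finset.sum_congr rfl fun i hi => (digit_pred h2 a i).1
          ((Finset.mem_range.1 hi).trans hk.2), Finset.sum_const, Finset.card_range, smul_eq_mul]
      have h8 : (p : ℤ) ∣ 2 ^ (k * (p - 1)) - 1 := by
        have : Fact p.Prime := ⟨hp⟩
        rw [← ZMod.intCast_zmod_eq_zero_iff_dvd]
        push_cast
        have h9 : (2 : ZMod p) ^ (p - 1) = 1 :=
          ZMod.pow_card_sub_one_eq_one (by simpa using two_pow_ne hp2 1)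
        rw [mul_comm, pow_mul, h9, one_pow, sub_self]
      rw [h7]
      exact fun h9 => h6 ((Int.dvd_add_right (dvd_mul_of_dvd_left h8 _)).1 h9)

end Pool.Agent.Results.MP_0d3661_nt.DigitCriterion
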