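import Pool.Agent.Lib.MP_0d3661_nt.Count

/-!
For every time `t ≥ 3` there are at most `10 log₂ t` points `x` strictly inside the cone at which
the real part (the imaginary part) of the Feynman checkers amplitude vanishes.
-/

namespace Pool.Agent.Results.MP_0d3661_nt.FewZeros

open Finset
open Pool.Agent.Lib.MP_0d3661_nt

theorem ncard_le {t : ℕ} (ht : 3 ≤ t) (P : ℤ → Prop) (δ : ℕ) (hδ : δ < 2)
    (hP : ∀ q : ℕ, q < t - 2 → P ((t : ℤ) - 2 * (q + 1)) → V (t - 2) q (q + δ) = 0) :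
    (({x : ℤ | -(t : ℤ) + 2 < x ∧ x < t ∧ Even (x + t) ∧ P x}.ncard : ℕ) : ℝ)
      ≤ 10 * Real.logb 2 t := by
  set Z := (range (t - 2)).filter fun q => V (t - 2) q (q + δ) = 0 with hZ
  have h1 : {x : ℤ | -(t : ℤ) + 2 < x ∧ x < t ∧ Even (x + t) ∧ P x} ⊆
      ((Z.image fun q : ℕ => (t : ℤ) - 2 * (q + 1) : Finset ℤ) : Set ℤ) := by
    rintro x ⟨hx1, hx2, hx3, hx4⟩
    obtain ⟨w, hw⟩ := hx3
    rw [Finset.mem_coe, Finset.mem_image]
    have hq : ((((t : ℤ) - x) / 2 - 1).toNat : ℤ) = ((t : ℤ) - x) / 2 - 1 :=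
      Int.toNat_of_nonneg (by omega)
    have hx : (t : ℤ) - 2 * (((((t : ℤ) - x) / 2 - 1).toNat : ℤ) + 1) = x := by
      rw [hq]; omega
    have hlt : (((t : ℤ) - x) / 2 - 1).toNat < t - 2 := by omega
    refine ⟨(((t : ℤ) - x) / 2 - 1).toNat, ?_, hx⟩
    rw [hZ, Finset.mem_filter, Finset.mem_range]
    refine ⟨hlt, hP _ hlt ?_⟩
    rw [hx]; exact hx4
  have h2 : {x : ℤ | -(t : ℤ) + 2 < x ∧ x < t ∧ Even (x + t) ∧ P x}.ncard ≤ Z.card := by
    refine (Set.ncard_le_ncard h1 (Finset.finite_toSet _)).trans ?_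
    rw [Set.ncard_coe_finset]
    exact Finset.card_image_le
  have h3 : 2 ^ Z.card ≤ (t - 2 + 2) ^ 10 := count_zeros' (by omega) δ hδ
  rw [Nat.sub_add_cancel (by omega)] at h3
  have h4 : (2 : ℝ) ^ (({x : ℤ | -(t : ℤ) + 2 < x ∧ x < t ∧ Even (x + t) ∧ P x}.ncard : ℕ) : ℝ)
      ≤ (t : ℝ) ^ 10 := by
    rw [Real.rpow_natCast]
    calc (2 : ℝ) ^ {x : ℤ | -(t : ℤ) + 2 < x ∧ x < t ∧ Even (x + t) ∧ P x}.ncard
        ≤ 2 ^ Z.card := pow_le_pow_right₀ (by norm_num) h2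
      _ ≤ (t : ℝ) ^ 10 := by exact_mod_cast h3
  have ht0 : (0 : ℝ) < t := by
    have : 0 < t := by omega
    exact_mod_cast this
  have h5 := (Real.le_logb_iff_rpow_le (b := 2) (by norm_num) (by positivity)).2 h4
  rw [Real.logb_pow] at h5
  exact_mod_cast h5

/-- For every `t ≥ 3` the number of integers `x` with `-t + 2 < x < t`, `x + t` even and
`Re a(x,t) = 0` is at most `10 log₂ t`, and the same holds for `Im a(x,t) = 0`. -/
theorem result (t : ℕ) (ht : 3 ≤ t) :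
    (({x : ℤ | -(t : ℤ) + 2 < x ∧ x < t ∧ Even (x + t) ∧ (amp x t).re = 0}.ncard : ℕ) : ℝ)
        ≤ 10 * Real.logb 2 t ∧
    (({x : ℤ | -(t : ℤ) + 2 < x ∧ x < t ∧ Even (x + t) ∧ (amp x t).im = 0}.ncard : ℕ) : ℝ)
        ≤ 10 * Real.logb 2 t := by
  have h2 : ∀ m : ℕ, (2 : ℝ) ^ ((1 - ((m + 1 : ℕ) : ℝ)) / 2) ≠ 0 := fun m =>
    (Real.rpow_pos_of_pos (by norm_num) _).ne'
  obtain ⟨n, rfl⟩ : ∃ n, t = n + 1 + 1 := ⟨t - 2, by omega⟩
  have hx : ∀ q : ℕ, (((n + 1 + 1 : ℕ) : ℤ) - 2 * (q + 1)) =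
      (((n + 1 : ℕ) : ℤ) + 1 - 2 * ((q + 1 : ℕ) : ℤ)) := by
    intro q; push_cast; ring
  constructor
  · refine ncard_le ht (fun x => (amp x (n + 1 + 1)).re = 0) 0 (by norm_num) ?_
    intro q hq h
    have hqn : q ≤ n := by omega
    simp only [hx, amp_re] at h
    have h3 := (mul_eq_zero.1 h).resolve_left (h2 _)
    have h4 : (rl (n + 1) (q + 1)).2 = 0 := by exact_mod_cast h3
    rw [(rl_eq n q hqn).1] at h4
    have h5 := (mul_eq_zero.1 h4).resolve_left (pow_ne_zero _ (by norm_num))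
    simpa using h5
  · refine ncard_le ht (fun x => (amp x (n + 1 + 1)).im = 0) 1 (by norm_num) ?_
    intro q hq h
    have hqn : q ≤ n := by omega
    simp only [hx, amp_im] at h
    have h3 := (mul_eq_zero.1 h).resolve_left (h2 _)
    have h4 : (rl (n + 1) (q + 1)).1 = 0 := by exact_mod_cast h3
    rw [(rl_eq n q hqn).2] at h4
    have h5 := (mul_eq_zero.1 h4).resolve_left (pow_ne_zero _ (by norm_num))
    simpa using h5

end Pool.Agent.Results.MP_0d3661_nt.FewZeros
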