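import Pool.Agent.Lib.MP_0d3661_nt.Kummer

/-!
For at least `39/64` of all times `t` (in the sense of lower density, with an explicit error) the
real and the imaginary part of the Feynman checkers amplitude do not vanish at any point strictly
inside the cone with `x ≠ 0, 2`.
-/

namespace Pool.Agent.Results.MP_0d3661_nt.MostTimes

open Finset
open Pool.Agent.Lib.MP_0d3661_nt

theorem card_good (M : ℕ) :
    ((range (128 * M)).filter fun n => good (n % 128) = true).card = 80 * M := by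
  rw [Finset.card_filter]
  induction M with
  | zero => simp
  | succ M ih =>
    rw [Nat.mul_succ, Finset.sum_range_add, ih, Nat.mul_succ, Nat.add_left_cancel_iff]
    have h1 : ∀ i ∈ range 128, (if good ((128 * M + i) % 128) = true then 1 else 0) =
        if good i = true then 1 else 0 := by
      intro i hi
      rw [Finset.mem_range] at hi
      rw [Nat.mul_add_mod, Nat.mod_eq_of_lt hi]
    rw [Finset.sum_congr rfl h1, ← Finset.card_filter]
    decide +kernel

theorem card_block (N a : ℕ) :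
    ((range N).filter fun n => 2 ^ a ≤ n ∧ (n / 2 ^ a) % 2 ^ a = 0).card * 2 ^ a ≤ N := by
  have hinj : ((range N).filter fun n => 2 ^ a ≤ n ∧ (n / 2 ^ a) % 2 ^ a = 0).card ≤
      (Icc 1 ((N - 1) / (2 ^ a * 2 ^ a)) ×ˢ range (2 ^ a)).card := by
    refine Finset.card_le_card_of_injOn
      (fun n => (n / (2 ^ a * 2 ^ a), n % (2 ^ a * 2 ^ a))) ?_ ?_
    · intro n hn
      rw [Finset.mem_coe, Finset.mem_filter, Finset.mem_range] at hn
      obtain ⟨h1, h2, h3⟩ := hn
      rw [Finset.mem_coe, Finset.mem_product, Finset.mem_Icc, Finset.mem_range]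
      have h4 : (n / 2 ^ a) % 2 ^ a = n % (2 ^ a * 2 ^ a) / 2 ^ a := by
        rw [Nat.mod_mul_right_div_self]
      rw [h4] at h3
      have hpos : 0 < 2 ^ a := by positivity
      have h5 : n % (2 ^ a * 2 ^ a) < 2 ^ a := by
        rcases Nat.div_eq_zero_iff.1 h3 with h | h
        · omega
        · exact h
      refine ⟨⟨?_, ?_⟩, h5⟩
      · rw [Nat.one_le_div_iff (by positivity)]
        by_contra hlt
        push Not at hlt
        rw [Nat.mod_eq_of_lt hlt] at h5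
        omega
      · exact Nat.div_le_div_right (by omega)
    · intro x _ y _ hxy
      have h1 := congrArg Prod.fst hxy
      have h2 := congrArg Prod.snd hxy
      simp only at h1 h2
      rw [← Nat.div_add_mod x (2 ^ a * 2 ^ a), ← Nat.div_add_mod y (2 ^ a * 2 ^ a), h1, h2]
  rw [Finset.card_product, Nat.card_Icc, Finset.card_range, Nat.add_sub_cancel] at hinj
  calc _ ≤ (N - 1) / (2 ^ a * 2 ^ a) * 2 ^ a * 2 ^ a := Nat.mul_le_mul_right _ hinj
    _ = (N - 1) / (2 ^ a * 2 ^ a) * (2 ^ a * 2 ^ a) := by rw [mul_assoc]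
    _ ≤ N - 1 := Nat.div_mul_le_self _ _
    _ ≤ N := Nat.sub_le _ _

theorem geom (K : ℕ) (hK : 7 ≤ K) :
    ∑ a ∈ Ico 7 K, ((1 : ℝ) / 2) ^ a + 2 * (1 / 2) ^ K = 1 / 64 := by
  induction K, hK using Nat.le_induction with
  | base => norm_num
  | succ K hK ih =>
    rw [Finset.sum_Ico_succ_top hK, pow_succ]
    linarith

open Classical in
theorem card_bad (N : ℕ) : (((range N).filter fun n => ¬ ZZ n).card : ℝ) ≤ N / 64 := by
  have h1 : ((range N).filter fun n => ¬ ZZ n) ⊆ (Ico 7 (N + 7)).biUnion fun a =>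
      (range N).filter fun n => 2 ^ a ≤ n ∧ (n / 2 ^ a) % 2 ^ a = 0 := by
    intro n hn
    rw [Finset.mem_filter] at hn
    obtain ⟨h2, h3⟩ := hn
    unfold ZZ at h3
    push Not at h3
    obtain ⟨a, ha, h4, h5⟩ := h3
    rw [Finset.mem_biUnion]
    refine ⟨a, ?_, Finset.mem_filter.2 ⟨h2, h4, h5⟩⟩
    rw [Finset.mem_range] at h2
    rw [Finset.mem_Ico]
    have := Nat.lt_two_pow_self (n := a)
    omega
  have h2 := (Finset.card_le_card h1).trans Finset.card_biUnion_le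
  have h3 : (((range N).filter fun n => ¬ ZZ n).card : ℝ) ≤
      ∑ a ∈ Ico 7 (N + 7), (((range N).filter fun n =>
        2 ^ a ≤ n ∧ (n / 2 ^ a) % 2 ^ a = 0).card : ℝ) := by exact_mod_cast h2
  have h4 : ∀ a ∈ Ico 7 (N + 7), (((range N).filter fun n =>
      2 ^ a ≤ n ∧ (n / 2 ^ a) % 2 ^ a = 0).card : ℝ) ≤ N * (1 / 2) ^ a := by
    intro a _
    have h5 := card_block N a
    have h6 : (((range N).filter fun n =>
        2 ^ a ≤ n ∧ (n / 2 ^ a) % 2 ^ a = 0).card : ℝ) * 2 ^ a ≤ N := by exact_mod_cast h5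
    rw [one_div, inv_pow, ← div_eq_mul_inv, le_div_iff₀ (by positivity)]
    exact h6
  refine (h3.trans (Finset.sum_le_sum h4)).trans ?_
  rw [← Finset.mul_sum]
  have h5 := geom (N + 7) (by omega)
  have h6 : (0 : ℝ) < (1 / 2) ^ (N + 7) := by positivity
  have h7 : (0 : ℝ) ≤ N := Nat.cast_nonneg N
  have h8 : ∑ a ∈ Ico 7 (N + 7), ((1 : ℝ) / 2) ^ a ≤ 1 / 64 := by linarith
  calc (N : ℝ) * ∑ a ∈ Ico 7 (N + 7), ((1 : ℝ) / 2) ^ a ≤ N * (1 / 64) :=
        mul_le_mul_of_nonneg_left h8 h7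
    _ = N / 64 := by ring

open Classical in
theorem card_all (N : ℕ) : (39 : ℝ) / 64 * N - 635 / 8 ≤
    (((range N).filter fun n => ZZ n ∧ good (n % 128) = true).card : ℝ) := by
  have h1 : ((range (128 * (N / 128))).filter fun n => good (n % 128) = true) ⊆
      ((range N).filter fun n => ZZ n ∧ good (n % 128) = true) ∪
        ((range N).filter fun n => ¬ ZZ n) := by
    intro n hn
    rw [Finset.mem_filter, Finset.mem_range] at hn
    rw [Finset.mem_union, Finset.mem_filter, Finset.mem_filter, Finset.mem_range]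
    have := Nat.mul_div_le N 128
    by_cases h : ZZ n
    · exact Or.inl ⟨by omega, h, hn.2⟩
    · exact Or.inr ⟨by omega, h⟩
  have h2 := (Finset.card_le_card h1).trans (Finset.card_union_le _ _)
  rw [card_good] at h2
  have h3 := card_bad N
  have h4 : (80 : ℝ) * ((N / 128 : ℕ) : ℝ) ≤
      (((range N).filter fun n => ZZ n ∧ good (n % 128) = true).card : ℝ) +
        (((range N).filter fun n => ¬ ZZ n).card : ℝ) := by exact_mod_cast h2
  have h5 : (N : ℝ) ≤ 128 * ((N / 128 : ℕ) : ℝ) + 127 := by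
    have : N ≤ 128 * (N / 128) + 127 := by omega
    exact_mod_cast this
  linarith

/-- the pointwise statement -/
theorem point {n : ℕ} (hn : ZZ n) (hg : good (n % 128) = true) (x : ℤ)
    (h1 : -((n + 1 + 1 : ℕ) : ℤ) + 2 < x) (h2 : x < ((n + 1 + 1 : ℕ) : ℤ))
    (h3 : Even (x + ((n + 1 + 1 : ℕ) : ℤ))) (h4 : x ≠ 0) (h5 : x ≠ 2) :
    (amp x (n + 1 + 1)).re ≠ 0 ∧ (amp x (n + 1 + 1)).im ≠ 0 := by
  obtain ⟨w, hw⟩ := h3
  obtain ⟨q, hq⟩ : ∃ q : ℕ, (q : ℤ) = (((n + 1 + 1 : ℕ) : ℤ) - x) / 2 - 1 :=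
    ⟨((((n + 1 + 1 : ℕ) : ℤ) - x) / 2 - 1).toNat, Int.toNat_of_nonneg (by omega)⟩
  have hx : x = (((n + 1 : ℕ) : ℤ) + 1 - 2 * ((q + 1 : ℕ) : ℤ)) := by
    push_cast at *
    omega
  have hqn : q + 1 ≤ n := by push_cast at *; omega
  have hV := V_ne_zero hn hg (q := q) (by omega) (by push_cast at *; omega)
  have hV2 := hV.2 (by push_cast at *; omega) hqn
  have h2 : (2 : ℝ) ^ ((1 - ((n + 1 + 1 : ℕ) : ℝ)) / 2) ≠ 0 :=
    (Real.rpow_pos_of_pos (by norm_num) _).ne'
  rw [hx]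
  constructor
  · rw [amp_re]
    intro h
    have h3 := (mul_eq_zero.1 h).resolve_left h2
    have h4 : (rl (n + 1) (q + 1)).2 = 0 := by exact_mod_cast h3
    rw [(rl_eq n q (by omega)).1] at h4
    exact hV.1 ((mul_eq_zero.1 h4).resolve_left (pow_ne_zero _ (by norm_num)))
  · rw [amp_im]
    intro h
    have h3 := (mul_eq_zero.1 h).resolve_left h2
    have h4 : (rl (n + 1) (q + 1)).1 = 0 := by exact_mod_cast h3
    rw [(rl_eq n q (by omega)).2] at h4
    exact hV2 ((mul_eq_zero.1 h4).resolve_left (pow_ne_zero _ (by norm_num)))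

/-- For every `N`, at least `(39/64) N - 80` of the times `1 ≤ t ≤ N` have the property that
`Re a(x,t) ≠ 0` and `Im a(x,t) ≠ 0` for all `x` with `-t + 2 < x < t`, `x + t` even, `x ≠ 0, 2`. -/
theorem result (N : ℕ) : (39 : ℝ) / 64 * N - 80 ≤
    (({t : ℕ | 1 ≤ t ∧ t ≤ N ∧ ∀ x : ℤ, -(t : ℤ) + 2 < x → x < t → Even (x + t) →
      x ≠ 0 → x ≠ 2 → (amp x t).re ≠ 0 ∧ (amp x t).im ≠ 0}.ncard : ℕ) : ℝ) := by
  classical
  have h1 := card_all (N - 1)
  have h2 : ((range (N - 1)).filter fun n => ZZ n ∧ good (n % 128) = true).card ≤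
      {t : ℕ | 1 ≤ t ∧ t ≤ N ∧ ∀ x : ℤ, -(t : ℤ) + 2 < x → x < t → Even (x + t) →
      x ≠ 0 → x ≠ 2 → (amp x t).re ≠ 0 ∧ (amp x t).im ≠ 0}.ncard := by
    rw [← Set.ncard_coe_finset]
    refine Set.ncard_le_ncard_of_injOn (fun n => n + 1 + 1) ?_ ?_ ?_
    · intro n hn
      rw [Finset.mem_coe, Finset.mem_filter, Finset.mem_range] at hn
      refine ⟨by omega, by omega, fun x a1 a2 a3 a4 a5 => ?_⟩
      exact point hn.2.1 hn.2.2 x a1 a2 a3 a4 a5
    · intro x _ y _ hxy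
      simpa using hxy
    · exact (Set.finite_Icc 1 N).subset fun t ht => ⟨ht.1, ht.2.1⟩
  have h3 : (((range (N - 1)).filter fun n => ZZ n ∧ good (n % 128) = true).card : ℝ) ≤
      (({t : ℕ | 1 ≤ t ∧ t ≤ N ∧ ∀ x : ℤ, -(t : ℤ) + 2 < x → x < t → Even (x + t) →
      x ≠ 0 → x ≠ 2 → (amp x t).re ≠ 0 ∧ (amp x t).im ≠ 0}.ncard : ℕ) : ℝ) := by
    exact_mod_cast h2
  have h4 : (N : ℝ) ≤ ((N - 1 : ℕ) : ℝ) + 1 := by
    have : N ≤ N - 1 + 1 := by omega
    exact_mod_cast this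
  linarith

end Pool.Agent.Results.MP_0d3661_nt.MostTimes
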