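import Pool.Agent.Lib.MP_0d3661_nt.StripCheck
import Pool.Agent.Lib.MP_0d3661_nt.SharpAll

/-!
The real and the imaginary part of the Feynman checkers amplitude do not vanish at any point of the
strip `|x| ≤ 100` (all times) and of the parabolic region `2 (|x| + 20)² ≤ π t`, except at the
places listed in the question.
-/

namespace Pool.Agent.Results.MP_0d3661_nt.Parabola

open Pool.Agent.Lib.MP_0d3661_nt

theorem amp_ne (A B : ℕ) : (S1 A B ≠ 0 → (amp ((A : ℤ) - B) (A + B + 1 + 1)).re ≠ 0) ∧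
    (S2 A B ≠ 0 → (amp ((A : ℤ) - B) (A + B + 1 + 1)).im ≠ 0) := by
  have hx : ((A : ℤ) - B) = ((A + B + 1 : ℕ) : ℤ) + 1 - 2 * ((B + 1 : ℕ) : ℤ) := by
    push_cast; ring
  have h2 : (2 : ℝ) ^ ((1 - ((A + B + 1 + 1 : ℕ) : ℝ)) / 2) ≠ 0 :=
    (Real.rpow_pos_of_pos (by norm_num) _).ne'
  have h3 := rl_sums (A + B) A B rfl
  rw [hx]
  constructor
  · intro h
    rw [amp_re, h3]
    exact mul_ne_zero h2 (by exact_mod_cast h)
  · intro h
    rw [amp_im, h3]
    refine mul_ne_zero h2 ?_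
    have : (-S2 A B : ℤ) ≠ 0 := neg_ne_zero.2 h
    exact_mod_cast this

/-- both sums are nonzero in the strip and below the nodal curve, first argument larger -/
theorem pos_case {B y : ℕ} (h1 : 1 ≤ y)
    (h2 : y ≤ 102 ∨ (y : ℝ) ^ 2 + 34 * y < Real.pi * ((B : ℝ) + 1)) :
    S1 (B + y) B ≠ 0 ∧ (y ≠ 2 → ¬ (B = 2 ∧ y = 5) → S2 (B + y) B ≠ 0) := by
  rcases Nat.lt_or_ge 102 y with h3 | h3
  · have h4 := S_sharp (B := B) (x := y) (by omega) (h2.resolve_left (by omega))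
    exact ⟨h4.1, fun _ _ => h4.2⟩
  · exact S_pos h1 (Or.inl h3)

/-- For all integers `x` and `t ≥ 1` with `-t + 2 < x < t`, `x + t` even, `x ∉ {0, 2}` and
`(x, t) ∉ {(-3, 11), (5, 11)}`: if `|x| ≤ 100` or `2 (|x| + 20)² ≤ π t`, then `Re a(x,t) ≠ 0` and
`Im a(x,t) ≠ 0`. -/
theorem result (x : ℤ) (t : ℕ) (ht : 1 ≤ t) (h1 : -(t : ℤ) + 2 < x) (h2 : x < t)
    (h3 : Even (x + t)) (hx0 : x ≠ 0) (hx2 : x ≠ 2) (he1 : ¬ (x = -3 ∧ t = 11))
    (he2 : ¬ (x = 5 ∧ t = 11)) (h : |x| ≤ 100 ∨ 2 * (|(x : ℝ)| + 20) ^ 2 ≤ Real.pi * t) :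
    (amp x t).re ≠ 0 ∧ (amp x t).im ≠ 0 := by
  obtain ⟨w, hw⟩ := h3
  obtain ⟨A, B, hA, hAB, hAx⟩ : ∃ A B : ℕ, 1 ≤ A ∧ t = A + B + 1 + 1 ∧ x = (A : ℤ) - B :=
    ⟨(w - 1).toNat, (t - w - 1).toNat, by omega, by omega, by omega⟩
  have hpi : Real.pi < 3.15 := Real.pi_lt_d2
  rw [hAx, hAB]
  have hamp := amp_ne A B
  rcases lt_or_gt_of_ne hx0 with hneg | hpos
  · -- negative `x`
    obtain ⟨y, hy⟩ : ∃ y : ℕ, (y : ℤ) = -x := ⟨(-x).toNat, by omega⟩
    have habs : |x| = y := by rw [abs_of_neg hneg, hy]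
    have hyr : (y : ℝ) = -(x : ℝ) := by exact_mod_cast hy
    have habs' : |(x : ℝ)| = y := by
      rw [abs_of_neg (by exact_mod_cast hneg), hyr]
    rw [habs, habs'] at h
    have hBy : B = A + y := by omega
    have hy1 : 1 ≤ y := by omega
    have hy0 : (0 : ℝ) ≤ y := Nat.cast_nonneg y
    have htr : (t : ℝ) = 2 * A + y + 2 := by
      rw [hAB, hBy]; push_cast; ring
    have hpy : Real.pi * (y : ℝ) ≤ 3.15 * y := mul_le_mul_of_nonneg_right hpi.le hy0
    have hc1 : y ≤ 102 ∨ (y : ℝ) ^ 2 + 34 * y < Real.pi * ((A : ℝ) + 1) := by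
      rcases h with h | h
      · left; omega
      · right
        rw [htr] at h
        nlinarith
    have hc2 : y + 2 ≤ 102 ∨ ((y + 2 : ℕ) : ℝ) ^ 2 + 34 * ((y + 2 : ℕ) : ℝ) <
        Real.pi * (((A - 1 : ℕ) : ℝ) + 1) := by
      rcases h with h | h
      · left; omega
      · right
        rw [htr] at h
        rw [Nat.cast_sub hA]
        push_cast
        nlinarith
    have hS1 := (pos_case hy1 hc1).1
    rw [← hBy, S1_comm] at hS1
    refine ⟨hamp.1 hS1, hamp.2 ?_⟩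
    obtain ⟨C, hC⟩ : ∃ C, A = C + 1 := ⟨A - 1, by omega⟩
    have hS2 := (pos_case (B := A - 1) (y := y + 2) (by omega) hc2).2 (by omega) (by omega)
    have e1 : A - 1 = C := by omega
    have e2 : C + (y + 2) = B + 1 := by omega
    rw [e1, e2] at hS2
    have hsk := S2_skew C B
    rw [← hC] at hsk
    intro h0
    rw [h0, mul_zero] at hsk
    rcases mul_eq_zero.1 hsk.symm with h5 | h5
    · omega
    · exact hS2 h5
  · -- positive `x`
    obtain ⟨y, hy⟩ : ∃ y : ℕ, (y : ℤ) = x := ⟨x.toNat, by omega⟩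
    have habs : |x| = y := by rw [abs_of_pos hpos, hy]
    have hyr : (y : ℝ) = (x : ℝ) := by exact_mod_cast hy
    have habs' : |(x : ℝ)| = y := by
      rw [abs_of_pos (by exact_mod_cast hpos), hyr]
    rw [habs, habs'] at h
    have hAy : A = B + y := by omega
    have hy1 : 1 ≤ y := by omega
    have hy0 : (0 : ℝ) ≤ y := Nat.cast_nonneg y
    have htr : (t : ℝ) = 2 * B + y + 2 := by
      rw [hAB, hAy]; push_cast; ring
    have hpy : Real.pi * (y : ℝ) ≤ 3.15 * y := mul_le_mul_of_nonneg_right hpi.le hy0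
    have hc1 : y ≤ 102 ∨ (y : ℝ) ^ 2 + 34 * y < Real.pi * ((B : ℝ) + 1) := by
      rcases h with h | h
      · left; omega
      · right
        rw [htr] at h
        nlinarith
    have hS := pos_case hy1 hc1
    rw [← hAy] at hS
    exact ⟨hamp.1 hS.1, hamp.2 (hS.2 (by omega) (by omega))⟩

end Pool.Agent.Results.MP_0d3661_nt.Parabola
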